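import Mathlib
import Pool.Agent.Q281.TL.Cfg
import Pool.Agent.Q281.TL.Tree

/-!
# Inverse monoids with context-free Schützenberger automata are tree-like
-/

namespace Pool.Agent.Results.MP_546eea_al.ContextFreeTreeLike

open Q281.TL SimpleGraph

/-- Inverse monoids: every element `x` has exactly one (generalized) inverse `x⁻¹`, i.e. exactly
one `y` with `x * y * x = x` and `y * x * y = y`. -/
class InverseMonoid (M : Type*) extends Monoid M, Inv M where
  mul_inv_mul : ∀ x : M, x * x⁻¹ * x = x
  inv_mul_inv : ∀ x : M, x⁻¹ * x * x⁻¹ = x⁻¹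
  inv_unique : ∀ x y : M, x * y * x = x → y * x * y = y → y = x⁻¹

section Defs

variable {A M : Type*} [InverseMonoid M] (φ : A → M)

/-- The image of a letter of `A ∪ A⁻¹`: `(a, true)` is the letter `a`, `(a, false)` is `a⁻¹`. -/
def letter : A × Bool → M
  | (a, true) => φ a
  | (a, false) => (φ a)⁻¹

/-- The natural map `(A ∪ A⁻¹)* → M`. -/
def ev (u : List (A × Bool)) : M := (u.map (letter φ)).prod

/-- The natural partial order of an inverse monoid: `x ≤ y` iff `x = e * y` for some
idempotent `e`. -/
def NatLE (x y : M) : Prop := ∃ e : M, e * e = e ∧ x = e * y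

/-- The language `L(w) = {u : uτ ≥ wτ}` of the Schützenberger automaton of `w`. -/
def lang (w : List (A × Bool)) : Language (A × Bool) := {u | NatLE (ev φ w) (ev φ u)}

/-- There is a directed path from `x` to `y` in the Cayley graph. -/
def Reach (x y : M) : Prop := ∃ u : List (A × Bool), x * ev φ u = y

/-- The vertices of the Schützenberger graph of `w`: the strongly connected component of `wτ`. -/
def SchV (w : List (A × Bool)) : Type _ := {x : M // Reach φ (ev φ w) x ∧ Reach φ x (ev φ w)}

/-- The (undirected simple graph underlying the) Schützenberger graph of `w`: `x` and `y` are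
adjacent if they are distinct and joined by an edge of the Cayley graph. -/
def schGraph (w : List (A × Bool)) : SimpleGraph (SchV φ w) :=
  SimpleGraph.fromRel (fun x y => ∃ a : A × Bool, x.1 * letter φ a = y.1)

/-- `M` is tree-like: every Schützenberger graph is quasi-isometric to a tree. -/
def TreeLike : Prop := ∀ w : List (A × Bool), QITree (schGraph φ w)

end Defs

section Basics

variable {M : Type*} [InverseMonoid M]

open InverseMonoid

lemma idem_inv {e : M} (h : e * e = e) : e = e⁻¹ :=
  InverseMonoid.inv_unique e e (by rw [h, h]) (by rw [h, h])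

lemma idem_mul {e f : M} (he : e * e = e) (hf : f * f = f) : (e * f) * (e * f) = e * f := by
  have h1 := mul_inv_mul (e * f)
  have h2 := inv_mul_inv (e * f)
  set x := (e * f)⁻¹ with hx
  have h3 : f * x * e = x := by
    rw [hx]
    apply InverseMonoid.inv_unique
    · calc e * f * (f * x * e) * (e * f) = e * (f * f) * x * (e * e) * f := by
            simp only [mul_assoc]
        _ = e * f * x * (e * f) := by rw [he, hf]; simp only [mul_assoc]
        _ = e * f := h1
    · calc f * x * e * (e * f) * (f * x * e) = f * (x * ((e * e) * (f * f)) * x) * e := by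
            simp only [mul_assoc]
        _ = f * (x * (e * f) * x) * e := by rw [he, hf]
        _ = f * x * e := by rw [h2]
  have h4 : x * x = x := by
    calc x * x = f * x * e * (f * x * e) := by rw [h3]
      _ = f * (x * (e * f) * x) * e := by simp only [mul_assoc]
      _ = f * x * e := by rw [h2]
      _ = x := h3
  have h5 : e * f = x⁻¹ := InverseMonoid.inv_unique x (e * f) h2 h1
  rw [h5, ← idem_inv h4, h4]

lemma idem_comm {e f : M} (he : e * e = e) (hf : f * f = f) : e * f = f * e := by
  have h1 := idem_mul he hf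
  have h2 := idem_mul hf he
  have h3 : f * e = (e * f)⁻¹ := by
    apply InverseMonoid.inv_unique
    · calc e * f * (f * e) * (e * f) = e * (f * f) * (e * e) * f := by simp only [mul_assoc]
        _ = e * f * (e * f) := by rw [he, hf]; simp only [mul_assoc]
        _ = e * f := h1
    · calc f * e * (e * f) * (f * e) = f * (e * e) * (f * f) * e := by simp only [mul_assoc]
        _ = f * e * (f * e) := by rw [he, hf]; simp only [mul_assoc]
        _ = f * e := h2
  rw [h3, ← idem_inv h1]

lemma idem_mul_inv (x : M) : (x * x⁻¹) * (x * x⁻¹) = x * x⁻¹ := by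
  rw [← mul_assoc, mul_inv_mul]

lemma idem_inv_mul (x : M) : (x⁻¹ * x) * (x⁻¹ * x) = x⁻¹ * x := by
  rw [← mul_assoc, inv_mul_inv]

lemma inv_inv' (x : M) : x⁻¹⁻¹ = x :=
  (InverseMonoid.inv_unique x⁻¹ x (inv_mul_inv x) (mul_inv_mul x)).symm

/-- edges come in inverse pairs -/
lemma cancel {x s t : M} (h : x * s * t = x) : x * s * s⁻¹ = x := by
  set e := x⁻¹ * x with he
  have hee : e * e = e := idem_inv_mul x
  have hxe : x * e = x := by rw [he, ← mul_assoc, mul_inv_mul]
  have h1 : e * (s * t) = e := by
    rw [he, mul_assoc, ← mul_assoc x s t, h]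
  have h2 : s * s⁻¹ * (s * t) = s * t := by
    rw [← mul_assoc, mul_inv_mul]
  have h3 : e * (s * s⁻¹) = e := by
    have hc := idem_comm hee (idem_mul_inv s)
    calc e * (s * s⁻¹) = s * s⁻¹ * e := hc
      _ = s * s⁻¹ * (e * (s * t)) := by rw [h1]
      _ = (s * s⁻¹ * e) * (s * t) := by simp only [mul_assoc]
      _ = (e * (s * s⁻¹)) * (s * t) := by rw [hc]
      _ = e * (s * s⁻¹ * (s * t)) := by simp only [mul_assoc]
      _ = e * (s * t) := by rw [h2]
      _ = e := h1
  calc x * s * s⁻¹ = x * e * s * s⁻¹ := by rw [hxe]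
    _ = x * (e * (s * s⁻¹)) := by simp only [mul_assoc]
    _ = x := by rw [h3, hxe]

/-- the Cayley graph is co-deterministic -/
lemma cancel' {x x' s t t' : M} (h : x * s = x' * s) (ht : x * s * t = x)
    (ht' : x' * s * t' = x') : x = x' := by
  rw [← cancel ht, ← cancel ht', h]

end Basics

section Paths

variable {A M : Type*} [InverseMonoid M] {φ : A → M}

open InverseMonoid

lemma ev_nil : ev φ [] = (1 : M) := rfl

lemma ev_append (u v : List (A × Bool)) : ev φ (u ++ v) = ev φ u * ev φ v := by
  simp [ev]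

lemma ev_cons (a : A × Bool) (v : List (A × Bool)) : ev φ (a :: v) = letter φ a * ev φ v := by
  simp [ev]

lemma ev_single (a : A × Bool) : ev φ [a] = letter φ a := by
  simp [ev]

lemma letter_not (a : A × Bool) : letter φ (a.1, !a.2) = (letter φ a)⁻¹ := by
  rcases a with ⟨a, _ | _⟩
  · simp [letter, inv_inv']
  · simp [letter]

lemma reach_refl (x : M) : Reach φ x x := ⟨[], by simp [ev_nil]⟩

lemma reach_trans {x y z : M} (h : Reach φ x y) (h' : Reach φ y z) : Reach φ x z := by
  obtain ⟨u, rfl⟩ := h
  obtain ⟨v, rfl⟩ := h'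
  exact ⟨u ++ v, by rw [ev_append, mul_assoc]⟩

variable {w : List (A × Bool)}

lemma reach_VV (x y : SchV φ w) : Reach φ x.1 y.1 := reach_trans x.2.2 y.2.1

/-- a vertex between two vertices of the component is in the component -/
lemma mem_between {x y : SchV φ w} {z : M} (h1 : Reach φ x.1 z) (h2 : Reach φ z y.1) :
    Reach φ (ev φ w) z ∧ Reach φ z (ev φ w) :=
  ⟨reach_trans x.2.1 h1, reach_trans h2 y.2.2⟩

lemma letter_back {x y : SchV φ w} {a : A × Bool} (h : x.1 * letter φ a = y.1) :
    y.1 * letter φ (a.1, !a.2) = x.1 := by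
  obtain ⟨t, ht⟩ := reach_VV y x
  rw [letter_not, ← h]
  exact cancel (t := ev φ t) (by rw [h]; exact ht)

lemma adj_letter {x y : SchV φ w} (h : (schGraph φ w).Adj x y) :
    ∃ a : A × Bool, x.1 * letter φ a = y.1 := by
  rw [schGraph, SimpleGraph.fromRel_adj] at h
  rcases h.2 with h | ⟨a, ha⟩
  · exact h
  · exact ⟨(a.1, !a.2), letter_back ha⟩

/-- walks are labelled by words -/
lemma walk_word {x y : SchV φ w} (p : (schGraph φ w).Walk x y) :
    ∃ u : List (A × Bool), u.length = p.length ∧ x.1 * ev φ u = y.1 ∧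
      ∀ t, ∃ z ∈ p.support, x.1 * ev φ (u.take t) = z.1 := by
  induction p with
  | @nil x =>
    exact ⟨[], rfl, by simp [ev_nil], fun t => ⟨x, by simp, by simp [ev_nil]⟩⟩
  | @cons x y z h p ih =>
    obtain ⟨u, hu, hy, hs⟩ := ih
    obtain ⟨a, ha⟩ := adj_letter h
    refine ⟨a :: u, by simp [hu], by rw [ev_cons, ← mul_assoc, ha, hy], fun t => ?_⟩
    cases t with
    | zero => exact ⟨x, by simp, by simp [ev_nil]⟩
    | succ t =>
      obtain ⟨v, hv, hv'⟩ := hs t
      exact ⟨v, by simp [hv], by rw [List.take_succ_cons, ev_cons, ← mul_assoc, ha, hv']⟩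

/-- words give walks -/
lemma word_walk : ∀ (u : List (A × Bool)) (x y : SchV φ w), x.1 * ev φ u = y.1 →
    ∃ p : (schGraph φ w).Walk x y, p.length ≤ u.length := by
  intro u
  induction u with
  | nil =>
    intro x y h
    have : x = y := Subtype.ext (by simpa [ev_nil] using h)
    subst this
    exact ⟨Walk.nil, by simp⟩
  | cons a u ih =>
    intro x y h
    rw [ev_cons, ← mul_assoc] at h
    set z : SchV φ w := ⟨x.1 * letter φ a, mem_between (x := x) (y := y)
      ⟨[a], by rw [ev_single]⟩ ⟨u, h⟩⟩ with hz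
    obtain ⟨p, hp⟩ := ih z y h
    by_cases hxz : x = z
    · refine ⟨p.copy hxz.symm rfl, ?_⟩
      simp; omega
    · have hadj : (schGraph φ w).Adj x z := by
        rw [schGraph, SimpleGraph.fromRel_adj]
        exact ⟨hxz, Or.inl ⟨a, rfl⟩⟩
      exact ⟨Walk.cons hadj p, by simp; omega⟩

lemma dist_word {u : List (A × Bool)} {x y : SchV φ w} (h : x.1 * ev φ u = y.1) :
    (schGraph φ w).dist x y ≤ u.length := by
  obtain ⟨p, hp⟩ := word_walk u x y h
  exact (dist_le p).trans hp

lemma connected : (schGraph φ w).Connected := by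
  refine (connected_iff _).2 ⟨fun x y => ?_, ⟨⟨ev φ w, reach_refl _, reach_refl _⟩⟩⟩
  obtain ⟨u, hu⟩ := reach_VV x y
  obtain ⟨p, _⟩ := word_walk u x y hu
  exact ⟨p⟩

end Paths

section Main

variable {A M : Type*} [InverseMonoid M] {φ : A → M}

open InverseMonoid

lemma natLE_idem {o s : M} (ho : o * o = o) : NatLE o s ↔ o * s = o := by
  constructor
  · rintro ⟨e, he, h⟩
    have h1 : e * o = o := by
      rw [h, ← mul_assoc, he]
    have h2 : o * e = o := by rw [idem_comm ho he, h1]
    calc o * s = o * e * s := by rw [h2]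
      _ = o * (e * s) := mul_assoc _ _ _
      _ = o := by rw [← h, ho]
  · intro h
    exact ⟨o, ho, h.symm⟩

/-- the bottleneck property -/
lemma bottleneck (w : List (A × Bool)) (o : SchV φ w) (K : ℕ) (L : Language (A × Bool))
    (hL : ∀ u, u ∈ L ↔ o.1 * ev φ u = o.1)
    (hK : ∀ u ∈ L, ∀ i j, i + 2 ≤ j → j ≤ u.length → Found L K u i j)
    (x y : SchV φ w) (hxy : Rel (schGraph φ w) o x y) :
    (schGraph φ w).dist x y ≤ 4 * K + 1 := by
  set G := schGraph φ w with hG
  have hconn : G.Connected := connected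
  obtain ⟨hl, γ, hγ⟩ := hxy
  obtain ⟨p, hp⟩ := hconn.exists_walk_length_eq_dist o x
  obtain ⟨q, hq⟩ := hconn.exists_walk_length_eq_dist y o
  obtain ⟨pw, hpw1, hpw2, -⟩ := walk_word p
  obtain ⟨gw, hgw1, hgw2, hgw3⟩ := walk_word γ
  obtain ⟨qw, hqw1, hqw2, -⟩ := walk_word q
  by_cases hsmall : γ.length ≤ 1
  · have := dist_le γ
    omega
  push Not at hsmall
  set l := G.dist o x with hldef
  set u := pw ++ (gw ++ qw) with hu
  have hlen : u.length = l + (γ.length + l) := by
    rw [hu, List.length_append, List.length_append, hpw1, hgw1, hqw1, hp, hq, dist_comm, ← hl]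
  have hou : o.1 * ev φ u = o.1 := by
    rw [hu, ev_append, ev_append, ← mul_assoc, ← mul_assoc, hpw2, hgw2, hqw2]
  have huL : u ∈ L := (hL u).2 hou
  -- vertices on the closed path
  have hmem : ∀ t, Reach φ (ev φ w) (o.1 * ev φ (u.take t)) ∧
      Reach φ (o.1 * ev φ (u.take t)) (ev φ w) := by
    intro t
    refine mem_between (x := o) (y := o) ⟨_, rfl⟩ ⟨u.drop t, ?_⟩
    rw [mul_assoc, ← ev_append, List.take_append_drop, hou]
  set P : ℕ → SchV φ w := fun t => ⟨o.1 * ev φ (u.take t), hmem t⟩ with hP
  have hPd : ∀ s t, s ≤ t → G.dist (P s) (P t) ≤ t - s := by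
    intro s t hst
    have h1 : (P s).1 * ev φ ((u.drop s).take (t - s)) = (P t).1 := by
      simp only [hP]
      rw [mul_assoc, ← ev_append]
      congr 2
      have : t = s + (t - s) := by omega
      conv_rhs => rw [this, List.take_add]
    refine (dist_word h1).trans ?_
    simp
  have hP0 : P 0 = o := Subtype.ext (by simp [hP, ev_nil])
  have hPlen : P u.length = o := Subtype.ext (by simp only [hP]; rw [List.take_length, hou])
  have hPx : P l = x := by
    apply Subtype.ext
    simp only [hP]
    have : u.take l = pw := by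
      rw [hu]
      have : l = pw.length := by rw [hpw1, hp]
      rw [this]; simp
    rw [this, hpw2]
  have hPy : P (l + γ.length) = y := by
    apply Subtype.ext
    simp only [hP]
    have : u.take (l + γ.length) = pw ++ gw := by
      rw [hu, ← List.append_assoc]
      have : l + γ.length = (pw ++ gw).length := by rw [List.length_append, hpw1, hp, hgw1]
      rw [this, List.take_left']
      rfl
    rw [this, ev_append, ← mul_assoc, hpw2, hgw2]
  have hPlev : ∀ t, l ≤ t → t ≤ l + γ.length → l ≤ G.dist o (P t) := by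
    intro t h1 h2
    obtain ⟨z, hz, hz'⟩ := hgw3 (t - l)
    have : P t = z := by
      apply Subtype.ext
      simp only [hP]
      rw [← hz', ← hpw2, mul_assoc, ← ev_append]
      congr 2
      have e1 : l = pw.length := by rw [hpw1, hp]
      rw [hu, List.take_append, List.take_of_length_le (by omega), ← e1, List.take_append]
      have e2 : t - l - gw.length = 0 := by rw [hgw1]; omega
      rw [e2]; simp
    rw [this]
    exact hγ z hz
  obtain ⟨p₀, q₀, r₀, hp1, hq1, hq2, hr1, hr2, ⟨w₁, hw₁, hm₁⟩, ⟨w₂, hw₂, hm₂⟩⟩ :=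
    hK u huL l (l + γ.length) (by omega) (by omega)
  -- chords
  have chord : ∀ (s t : ℕ) (v : List (A × Bool)), u.take s ++ (v ++ u.drop t) ∈ L →
      (P s).1 * ev φ v = (P t).1 := by
    intro s t v hv
    have h1 := (hL _).1 hv
    rw [ev_append, ev_append, ← mul_assoc, ← mul_assoc] at h1
    have h2 : o.1 * ev φ (u.take t) * ev φ (u.drop t) = o.1 := by
      rw [mul_assoc, ← ev_append, List.take_append_drop, hou]
    have e1 : (P s).1 = o.1 * ev φ (u.take s) := rfl
    have e2 : (P t).1 = o.1 * ev φ (u.take t) := rfl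
    rw [e1, e2]
    apply cancel' (s := ev φ (u.drop t)) (t := ev φ (u.take s ++ v)) (t' := ev φ (u.take t))
    · rw [h1, h2]
    · rw [h1, ev_append, ← mul_assoc]
    · rw [h2]
  have c1 : G.dist (P p₀) (P q₀) ≤ K := (dist_word (chord _ _ _ hm₁)).trans hw₁
  have c2 : G.dist (P q₀) (P r₀) ≤ K := (dist_word (chord _ _ _ hm₂)).trans hw₂
  have hlq := hPlev q₀ (by omega) (by omega)
  have t1 := hconn.dist_triangle (u := o) (v := P p₀) (w := P q₀)
  have t2 : G.dist o (P p₀) ≤ p₀ := by
    have := hPd 0 p₀ (Nat.zero_le _)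
    rwa [hP0] at this
  have t3 : G.dist (P p₀) x ≤ l - p₀ := by
    have := hPd p₀ l hp1
    rwa [hPx] at this
  have t4 : G.dist (P r₀) o ≤ u.length - r₀ := by
    have := hPd r₀ u.length hr2
    rwa [hPlen] at this
  have t5 : G.dist y (P r₀) ≤ r₀ - (l + γ.length) := by
    have := hPd (l + γ.length) r₀ hr1
    rwa [hPy] at this
  have t6 := hconn.dist_triangle (u := o) (v := P r₀) (w := P q₀)
  have t7 : G.dist (P r₀) (P q₀) = G.dist (P q₀) (P r₀) := dist_comm
  have t8 : G.dist o (P r₀) = G.dist (P r₀) o := dist_comm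
  have t9 := hconn.dist_triangle (u := x) (v := P p₀) (w := P q₀)
  have t10 : G.dist x (P p₀) = G.dist (P p₀) x := dist_comm
  have t11 := hconn.dist_triangle (u := P q₀) (v := P r₀) (w := y)
  have t12 : G.dist (P r₀) y = G.dist y (P r₀) := dist_comm
  have t13 := hconn.dist_triangle (u := x) (v := P q₀) (w := y)
  omega

end Main

/-- **Main result.** Let `M` be an inverse monoid generated (as an inverse monoid) by a set `A`;
finite presentations are a special case. If the language of the Schützenberger automaton of every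
word is context-free, then `M` is tree-like. -/
theorem result {A M : Type*} [InverseMonoid M] (φ : A → M) (hgen : Function.Surjective (ev φ))
    (hcf : ∀ w : List (A × Bool), (lang φ w).IsContextFree) : TreeLike φ := by
  intro w
  set m : M := ev φ w with hm
  obtain ⟨v, hv⟩ := hgen (m * m⁻¹)
  obtain ⟨s, hs⟩ := hgen m⁻¹
  have ho : ev φ v * ev φ v = ev φ v := by rw [hv]; exact idem_mul_inv m
  let o : SchV φ w := ⟨ev φ v, ⟨s, by rw [hs, hv]⟩, ⟨w, by
    rw [hv, ← hm]; exact InverseMonoid.mul_inv_mul m⟩⟩
  obtain ⟨K, hK⟩ := exists_found (hcf v)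
  refine qiTree_of_bottleneck (o := o) connected (4 * K + 1) (fun x y hxy => ?_)
  exact bottleneck w o K (lang φ v) (fun u => natLE_idem ho) hK x y hxy

end Pool.Agent.Results.MP_546eea_al.ContextFreeTreeLike
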